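import Pool.Agent.Q225.IC.Stm

/-!
# Project IC (helper225): the probability of a transcript is a product (FAC)
-/

set_option autoImplicit false

open Finset

namespace Pool.Agent.Q225.IC

theorem t_FAC : S_FAC := by
  intro X Y O p
  induction p with
  | out o =>
    refine ⟨⟨fun _ _ => 1, fun _ _ => 1, fun _ _ => zero_le_one, fun _ _ => zero_le_one, ?_⟩, ?_⟩
    · intro x y t
      rw [mul_one]
      rfl
    · intro x y
      show ∑ t : Unit, (1 : ℝ) = 1
      simp
  | alice f p q ihp ihq =>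
    obtain ⟨⟨α1, β1, a1, b1, c1⟩, s1⟩ := ihp
    obtain ⟨⟨α2, β2, a2, b2, c2⟩, s2⟩ := ihq
    refine ⟨⟨fun t => Sum.elim (fun t x => (f x : ℝ) * α1 t x) (fun t x => (1 - (f x : ℝ)) * α2 t x) t,
      fun t => Sum.elim β1 β2 t, ?_, ?_, ?_⟩, ?_⟩
    · rintro (t | t) x
      · exact mul_nonneg (f x).2.1 (a1 t x)
      · exact mul_nonneg (sub_nonneg.2 (f x).2.2) (a2 t x)
    · rintro (t | t) y
      · exact b1 t y
      · exact b2 t y
    · rintro x y (t | t)
      · show (f x : ℝ) * p.prob x y t = (f x : ℝ) * α1 t x * β1 t y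
        rw [c1, mul_assoc]
      · show (1 - (f x : ℝ)) * q.prob x y t = (1 - (f x : ℝ)) * α2 t x * β2 t y
        rw [c2, mul_assoc]
    · intro x y
      show ∑ t : p.T ⊕ q.T, Sum.elim (fun t => (f x : ℝ) * Prot.prob x y p t)
        (fun t => (1 - (f x : ℝ)) * Prot.prob x y q t) t = 1
      rw [Fintype.sum_sum_type]
      simp only [Sum.elim_inl, Sum.elim_inr]
      rw [← mul_sum, ← mul_sum, s1, s2]
      ring
  | bob g p q ihp ihq =>
    obtain ⟨⟨α1, β1, a1, b1, c1⟩, s1⟩ := ihp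
    obtain ⟨⟨α2, β2, a2, b2, c2⟩, s2⟩ := ihq
    refine ⟨⟨fun t => Sum.elim α1 α2 t,
      fun t => Sum.elim (fun t y => (g y : ℝ) * β1 t y) (fun t y => (1 - (g y : ℝ)) * β2 t y) t,
      ?_, ?_, ?_⟩, ?_⟩
    · rintro (t | t) x
      · exact a1 t x
      · exact a2 t x
    · rintro (t | t) y
      · exact mul_nonneg (g y).2.1 (b1 t y)
      · exact mul_nonneg (sub_nonneg.2 (g y).2.2) (b2 t y)
    · rintro x y (t | t)
      · show (g y : ℝ) * p.prob x y t = α1 t x * ((g y : ℝ) * β1 t y)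
        rw [c1]
        ring
      · show (1 - (g y : ℝ)) * q.prob x y t = α2 t x * ((1 - (g y : ℝ)) * β2 t y)
        rw [c2]
        ring
    · intro x y
      show ∑ t : p.T ⊕ q.T, Sum.elim (fun t => (g y : ℝ) * Prot.prob x y p t)
        (fun t => (1 - (g y : ℝ)) * Prot.prob x y q t) t = 1
      rw [Fintype.sum_sum_type]
      simp only [Sum.elim_inl, Sum.elim_inr]
      rw [← mul_sum, ← mul_sum, s1, s2]
      ring
  | coin s p q ihp ihq =>
    obtain ⟨⟨α1, β1, a1, b1, c1⟩, s1⟩ := ihp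
    obtain ⟨⟨α2, β2, a2, b2, c2⟩, s2⟩ := ihq
    refine ⟨⟨fun t => Sum.elim (fun t x => (s : ℝ) * α1 t x) (fun t x => (1 - (s : ℝ)) * α2 t x) t,
      fun t => Sum.elim β1 β2 t, ?_, ?_, ?_⟩, ?_⟩
    · rintro (t | t) x
      · exact mul_nonneg s.2.1 (a1 t x)
      · exact mul_nonneg (sub_nonneg.2 s.2.2) (a2 t x)
    · rintro (t | t) y
      · exact b1 t y
      · exact b2 t y
    · rintro x y (t | t)
      · show (s : ℝ) * p.prob x y t = (s : ℝ) * α1 t x * β1 t y
        rw [c1, mul_assoc]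
      · show (1 - (s : ℝ)) * q.prob x y t = (1 - (s : ℝ)) * α2 t x * β2 t y
        rw [c2, mul_assoc]
    · intro x y
      show ∑ t : p.T ⊕ q.T, Sum.elim (fun t => (s : ℝ) * Prot.prob x y p t)
        (fun t => (1 - (s : ℝ)) * Prot.prob x y q t) t = 1
      rw [Fintype.sum_sum_type]
      simp only [Sum.elim_inl, Sum.elim_inr]
      rw [← mul_sum, ← mul_sum, s1, s2]
      ring

end Pool.Agent.Q225.IC
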