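import Pool.Agent.Q225.IC.Stm

/-!
# Project IC (helper225): the log-sum inequality (LS) and nonnegativity of relative entropies (KL0)
-/

set_option autoImplicit false

open Finset

namespace Pool.Agent.Q225.IC

theorem t_LS : S_LS := by
  intro ι _ p w hp hw hpw
  obtain ⟨P, hP⟩ : ∃ P : ℝ, P = ∑ i, p i := ⟨_, rfl⟩
  obtain ⟨W, hW⟩ : ∃ W : ℝ, W = ∑ i, w i := ⟨_, rfl⟩
  rw [← hP, ← hW]
  have hP0 : 0 ≤ P := by rw [hP]; exact sum_nonneg fun i _ => hp i
  rcases hP0.eq_or_lt with h0 | h0
  · have h1 : ∀ i, p i = 0 := by
      intro i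
      rw [hP] at h0
      exact (sum_eq_zero_iff_of_nonneg fun i _ => hp i).1 h0.symm i (mem_univ i)
    rw [← h0, zero_mul]
    apply sum_nonneg
    intro i _
    rw [h1 i, zero_mul]
  · have hW0 : 0 < W := by
      obtain ⟨i, -, hi⟩ := exists_ne_zero_of_sum_ne_zero (hP ▸ h0.ne')
      rw [hW]
      exact sum_pos' (fun j _ => hw j) ⟨i, mem_univ i, hpw i hi⟩
    have key : ∀ i, p i - w i * (P / W) ≤ p i * Real.log (p i / w i) - p i * Real.log (P / W) := by
      intro i
      rcases (hp i).eq_or_lt with h | h
      · rw [← h]
        simp only [zero_mul, sub_zero, zero_sub]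
        have : 0 ≤ w i * (P / W) := mul_nonneg (hw i) (by positivity)
        linarith
      · have hwi : 0 < w i := hpw i h.ne'
        have h1 : Real.log (p i / w i) - Real.log (P / W) = -Real.log ((w i * (P / W)) / p i) := by
          rw [← Real.log_inv, ← Real.log_div (by positivity) (by positivity)]
          congr 1
          field_simp
        have h2 := Real.log_le_sub_one_of_pos (show 0 < (w i * (P / W)) / p i by positivity)
        rw [← mul_sub, h1]
        have h3 : p i * (1 - (w i * (P / W)) / p i) ≤ p i * -Real.log ((w i * (P / W)) / p i) :=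
          mul_le_mul_of_nonneg_left (by linarith) h.le
        have h4 : p i * (1 - (w i * (P / W)) / p i) = p i - w i * (P / W) := by
          field_simp
        linarith
    have h5 := sum_le_sum fun i (_ : i ∈ univ) => key i
    rw [sum_sub_distrib, sum_sub_distrib, ← sum_mul, ← sum_mul, ← hP, ← hW] at h5
    have h6 : W * (P / W) = P := by field_simp
    rw [h6] at h5
    linarith

/-- the number of the pairs `(v, z)` with `ok c v z` -/
theorem card_ok (h : S_CNT) (P : Type) [Fintype P] [DecidableEq P] (r : ℕ) (c : P)
    (h2 : 2 ≤ Fintype.card P) :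
    ((∑ v : P, ∑ z : Tb P r, if ok c v z then (1 : ℝ) else 0)) = Nc P r := by
  have h1 : ∀ v : P, (∑ z : Tb P r, if ok c v z then (1 : ℝ) else 0) =
      if v ≠ c then (r : ℝ) * ((r : ℝ) + 1) ^ (Fintype.card P - 2) else 0 := by
    intro v
    by_cases hv : v ≠ c
    · rw [if_pos hv]
      have h3 := (h P r c v hv).1
      have h4 : (univ.filter (fun z : Tb P r => ok c v z)) =
          univ.filter (fun z : Tb P r => z c = 0 ∧ z v ≠ 0) := by
        apply filter_congr
        intro z _
        unfold ok
        tauto
      rw [← sum_filter, sum_const, h4, h3]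
      simp
    · rw [if_neg hv]
      apply sum_eq_zero
      intro z _
      rw [if_neg]
      intro hok
      exact hv hok.1
  rw [sum_congr rfl fun v _ => h1 v, ← sum_filter, sum_const]
  have h5 : (univ.filter (fun v : P => v ≠ c)).card = Fintype.card P - 1 := by
    rw [filter_ne', card_erase_of_mem (mem_univ c), card_univ]
  rw [h5, nsmul_eq_mul, Nat.cast_sub (by omega)]
  unfold Nc
  push_cast
  ring

theorem t_KL0 (h : S_LS) (hc : S_CNT) : S_KL0 := by
  intro P _ _ r A B c e hr h2 hA hB
  obtain ⟨m, hm⟩ : ∃ m : ℝ, m = mm A B c e := ⟨_, rfl⟩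
  have hq : ∀ v z, 0 ≤ A (xin e c v) * B (bv e, z) := fun v z => mul_nonneg (hA _) (hB _)
  have hm0 : 0 ≤ m := by
    rw [hm]
    apply sum_nonneg
    intro v _
    apply sum_nonneg
    intro z _
    split_ifs
    · exact hq v z
    · exact le_rfl
  have hNc : 0 < Nc P r := by
    unfold Nc
    have h3 : (2 : ℝ) ≤ Fintype.card P := by exact_mod_cast h2
    have h4 : (1 : ℝ) ≤ r := by exact_mod_cast hr
    have h5 : (0 : ℝ) < (Fintype.card P : ℝ) - 1 := by linarith
    positivity
  unfold KL
  rw [← hm]
  rcases hm0.eq_or_lt with h0 | h0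
  · rw [← h0]
    apply sum_nonneg
    intro v _
    apply sum_nonneg
    intro z _
    split_ifs
    · rw [div_zero, Real.log_zero, mul_zero]
    · exact le_rfl
  · have h3 := h (P × Tb P r) (fun t => if ok c t.1 t.2 then A (xin e c t.1) * B (bv e, t.2) else 0)
      (fun t => if ok c t.1 t.2 then m / Nc P r else 0)
      (fun t => by
        split_ifs
        · exact hq _ _
        · exact le_rfl)
      (fun t => by
        split_ifs
        · positivity
        · exact le_rfl)
      (fun t ht => by
        split_ifs at ht ⊢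
        · positivity
        · exact absurd rfl ht)
    have e1 : ∑ t : P × Tb P r, (if ok c t.1 t.2 then A (xin e c t.1) * B (bv e, t.2) else 0) = m := by
      rw [hm, Fintype.sum_prod_type]
      rfl
    have e2 : ∑ t : P × Tb P r, (if ok c t.1 t.2 then m / Nc P r else 0) = m := by
      rw [Fintype.sum_prod_type]
      have e3 : ∀ v : P, ∑ z : Tb P r, (if ok c v z then m / Nc P r else 0) =
          m / Nc P r * ∑ z : Tb P r, (if ok c v z then (1 : ℝ) else 0) := by
        intro v
        rw [mul_sum]
        apply sum_congr rfl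
        intro z _
        split_ifs <;> simp
      simp only [e3]
      rw [← mul_sum, card_ok hc P r c h2]
      field_simp
    rw [e1, e2, div_self h0.ne', Real.log_one, mul_zero, Fintype.sum_prod_type] at h3
    refine h3.trans (le_of_eq ?_)
    apply sum_congr rfl
    intro v _
    apply sum_congr rfl
    intro z _
    simp only
    split_ifs
    · congr 2
      field_simp
    · simp

end Pool.Agent.Q225.IC
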